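import Pool.Agent.Q19.HO.Stm

set_option autoImplicit false

namespace Pool.Agent.Q62.HO.TWO

open Pool.Agent.Q19.HO Matrix

variable {K : Type} [Field K]

/-- the Hermitian matrix with entries `a, b` on the diagonal and `o` at `(0,1)` -/
def H (a b : K) (o : Oct K) : SymP 2 K :=
  ⟨!![a • (1 : Oct K), o; star o, b • (1 : Oct K)], by
    intro i j
    fin_cases i <;> fin_cases j <;> simp [star_smul']⟩

lemma H00 (a b : K) (o : Oct K) : (H a b o : Mat 2 K) 0 0 = a • (1 : Oct K) := rfl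
lemma H01 (a b : K) (o : Oct K) : (H a b o : Mat 2 K) 0 1 = o := rfl
lemma H10 (a b : K) (o : Oct K) : (H a b o : Mat 2 K) 1 0 = star o := rfl
lemma H11 (a b : K) (o : Oct K) : (H a b o : Mat 2 K) 1 1 = b • (1 : Oct K) := rfl

lemma real_of_star (h2 : (2 : K) ≠ 0) (x : Oct K) (hx : star x = x) : x = x 0 • (1 : Oct K) := by
  have e0 : x 1 = x 0 := congrFun hx 0
  have aux : ∀ a : K, -a = a → a = 0 := fun a ha => by
    have : (2 : K) * a = 0 := by linear_combination -ha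
    exact (mul_eq_zero.mp this).resolve_left h2
  have e2 : x 2 = 0 := aux _ (congrFun hx 2)
  have e3 : x 3 = 0 := aux _ (congrFun hx 3)
  have e4 : x 4 = 0 := aux _ (congrFun hx 4)
  have e5 : x 5 = 0 := aux _ (congrFun hx 5)
  have e6 : x 6 = 0 := aux _ (congrFun hx 6)
  have e7 : x 7 = 0 := aux _ (congrFun hx 7)
  refine oct_ext fun i => ?_
  fin_cases i <;>
    simp [smul_ap, one0, one1, one2, one3, one4, one5, one6, one7, e0, e2, e3, e4, e5, e6, e7]

lemma H_surj (h2 : (2 : K) ≠ 0) (X : SymP 2 K) : ∃ a b o, X = H a b o := by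
  have hX := X.2
  refine ⟨(X : Mat 2 K) 0 0 0, (X : Mat 2 K) 1 1 0, (X : Mat 2 K) 0 1, Subtype.ext ?_⟩
  refine Matrix.ext fun i j => ?_
  fin_cases i <;> fin_cases j
  · exact real_of_star h2 _ (hX 0 0)
  · rfl
  · exact (hX 1 0).symm
  · exact real_of_star h2 _ (hX 1 1)

lemma H_add (a b : K) (o : Oct K) (a' b' : K) (o' : Oct K) :
    H a b o + H a' b' o' = H (a + a') (b + b') (o + o') := by
  refine Subtype.ext (Matrix.ext fun i j => ?_)
  fin_cases i <;> fin_cases j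
  · exact (add_smul a a' (1 : Oct K)).symm
  · rfl
  · exact (star_add o o').symm
  · exact (add_smul b b' (1 : Oct K)).symm

lemma H_smul (r a b : K) (o : Oct K) : r • H a b o = H (r * a) (r * b) (r • o) := by
  refine Subtype.ext (Matrix.ext fun i j => ?_)
  fin_cases i <;> fin_cases j
  · exact (mul_smul r a (1 : Oct K)).symm
  · rfl
  · exact (star_smul' r o).symm
  · exact (mul_smul r b (1 : Oct K)).symm

lemma neg_smul'' (r : K) (X : SymP 2 K) : -(r • X) = (-r) • X := by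
  refine Subtype.ext (Matrix.ext fun i j => ?_)
  exact (neg_smul r ((X : Mat 2 K) i j)).symm

lemma sub_smul'' (r s : K) (X : SymP 2 K) : (r - s) • X = r • X - s • X := by
  refine Subtype.ext (Matrix.ext fun i j => ?_)
  exact sub_smul r s ((X : Mat 2 K) i j)

lemma H_one : ((H 1 1 0 : SymP 2 K) : Mat 2 K) = 1 := by
  refine Matrix.ext fun i j => ?_
  fin_cases i <;> fin_cases j
  · exact one_smul K (1 : Oct K)
  · rfl
  · exact star_zero _
  · exact one_smul K (1 : Oct K)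

lemma H_inj {a b a' b' : K} {o o' : Oct K} (h : H a b o = H a' b' o') :
    a = a' ∧ b = b' ∧ o = o' := by
  have h0 : (H a b o : Mat 2 K) = H a' b' o' := congrArg _ h
  have h1 : a • (1 : Oct K) = a' • (1 : Oct K) := congrFun (congrFun h0 0) 0
  have h3 : b • (1 : Oct K) = b' • (1 : Oct K) := congrFun (congrFun h0 1) 1
  refine ⟨?_, ?_, congrFun (congrFun h0 0) 1⟩
  · have := congrFun h1 0
    rw [smul_ap, smul_ap, one0, mul_one, mul_one] at this
    exact this
  · have := congrFun h3 0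
    rw [smul_ap, smul_ap, one0, mul_one, mul_one] at this
    exact this

/-- the polar form -/
def B (x y : Oct K) : K := (2 : K)⁻¹ * (x 0 * y 1 + y 0 * x 1 -
  (x 2 * y 5 + y 2 * x 5 + (x 3 * y 6 + y 3 * x 6) + (x 4 * y 7 + y 4 * x 7)))

lemma B1 (x y : Oct K) :
    (2 : K)⁻¹ • (x * star y + y * star x) = B x y • (1 : Oct K) := by
  refine oct_ext fun i => ?_
  fin_cases i <;> simp only [Fin.zero_eta, Fin.mk_one, Fin.reduceFinMk, Fin.isValue, mul0, mul1, mul2,
    mul3, mul4, mul5, mul6, mul7, smul_ap, add_ap, one0, one1,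
    one2, one3, one4, one5, one6, one7, star0, star1, star2, star3, star4, star5, star6, star7,
    B] <;> ring

lemma B2 (x y : Oct K) :
    (2 : K)⁻¹ • (star x * y + star y * x) = B x y • (1 : Oct K) := by
  refine oct_ext fun i => ?_
  fin_cases i <;> simp only [Fin.zero_eta, Fin.mk_one, Fin.reduceFinMk, Fin.isValue, mul0, mul1, mul2,
    mul3, mul4, mul5, mul6, mul7, smul_ap, add_ap, one0, one1,
    one2, one3, one4, one5, one6, one7, star0, star1, star2, star3, star4, star5, star6, star7,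
    B] <;> ring

lemma B_self (h2 : (2 : K) ≠ 0) (x : Oct K) : B x x = Oct.norm x := by
  unfold B Oct.norm
  field_simp
  ring

lemma smul_one_mul' (r : K) (x : Oct K) : (r • (1 : Oct K)) * x = r • x := by
  rw [Q19.HO.smul_mul', one_mul]
lemma mul_smul_one' (r : K) (x : Oct K) : x * (r • (1 : Oct K)) = r • x := by
  rw [Q19.HO.mul_smul', mul_one]

lemma jp_HH (h2 : (2 : K) ≠ 0) (a b : K) (o : Oct K) (a' b' : K) (o' : Oct K) :
    jp (H a b o : Mat 2 K) (H a' b' o') =
      H (a * a' + B o o') (b * b' + B o o') ((2 : K)⁻¹ • ((a + b) • o' + (a' + b') • o)) := by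
  have hh : ∀ r : Oct K, (2 : K)⁻¹ • (r + r) = r := fun r => by
    rw [← two_smul K r, smul_smul, inv_mul_cancel₀ h2, one_smul]
  refine Matrix.ext fun i j => ?_
  fin_cases i <;> fin_cases j
  · show (2 : K)⁻¹ • (((H a b o : Mat 2 K) * (H a' b' o' : Mat 2 K)) 0 0 +
      ((H a' b' o' : Mat 2 K) * (H a b o : Mat 2 K)) 0 0) = (a * a' + B o o') • (1 : Oct K)
    rw [Matrix.mul_apply, Matrix.mul_apply, Fin.sum_univ_two, Fin.sum_univ_two, H00, H00, H01, H01,
      H10, H10, smul_one_mul', smul_one_mul', add_smul, ← B1, smul_smul, smul_smul, mul_comm a' a]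
    rw [add_add_add_comm, smul_add, hh]
  · show (2 : K)⁻¹ • (((H a b o : Mat 2 K) * (H a' b' o' : Mat 2 K)) 0 1 +
      ((H a' b' o' : Mat 2 K) * (H a b o : Mat 2 K)) 0 1) = (2 : K)⁻¹ • ((a + b) • o' + (a' + b') • o)
    rw [Matrix.mul_apply, Matrix.mul_apply, Fin.sum_univ_two, Fin.sum_univ_two, H00, H00, H01, H01,
      H11, H11, smul_one_mul', smul_one_mul', mul_smul_one', mul_smul_one']
    congr 1
    rw [add_smul, add_smul]
    abel
  · show (2 : K)⁻¹ • (((H a b o : Mat 2 K) * (H a' b' o' : Mat 2 K)) 1 0 +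
      ((H a' b' o' : Mat 2 K) * (H a b o : Mat 2 K)) 1 0) =
      star ((2 : K)⁻¹ • ((a + b) • o' + (a' + b') • o))
    rw [Matrix.mul_apply, Matrix.mul_apply, Fin.sum_univ_two, Fin.sum_univ_two, H00, H00, H10, H10,
      H11, H11, smul_one_mul', smul_one_mul', mul_smul_one', mul_smul_one', star_smul', star_add,
      star_smul', star_smul']
    congr 1
    rw [add_smul, add_smul]
    abel
  · show (2 : K)⁻¹ • (((H a b o : Mat 2 K) * (H a' b' o' : Mat 2 K)) 1 1 +
      ((H a' b' o' : Mat 2 K) * (H a b o : Mat 2 K)) 1 1) = (b * b' + B o o') • (1 : Oct K)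
    rw [Matrix.mul_apply, Matrix.mul_apply, Fin.sum_univ_two, Fin.sum_univ_two, H01, H01,
      H10, H10, H11, H11, smul_one_mul', smul_one_mul', add_smul, ← B2, smul_smul, smul_smul,
      mul_comm b' b]
    rw [add_add_add_comm, smul_add, hh, add_comm]

lemma det2_H (a b : K) (o : Oct K) : det2 (H a b o : Mat 2 K) = a * b - Oct.norm o := by
  unfold det2
  rw [H00, H11, H01, smul_ap, smul_ap, one0, mul_one, mul_one]

lemma jp_sq (h2 : (2 : K) ≠ 0) (a b : K) (o : Oct K) :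
    jp (H a b o : Mat 2 K) (H a b o) =
      ((a + b) • H a b o - (a * b - Oct.norm o) • H 1 1 0 : SymP 2 K) := by
  rw [jp_HH h2]
  congr 1
  rw [sub_eq_add_neg, neg_smul'', H_smul, H_smul, H_add, B_self h2]
  congr 1
  · ring
  · ring
  · rw [← two_smul K ((a + b) • o), smul_smul (2 : K)⁻¹ 2, inv_mul_cancel₀ h2, one_smul, smul_zero,
      add_zero]

/-- `jp` as a product of the Hermitian matrices -/
lemma jp_mem (h2 : (2 : K) ≠ 0) (X Y : SymP 2 K) : ∃ Z : SymP 2 K, jp (X : Mat 2 K) Y = Z := by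
  obtain ⟨a, b, o, rfl⟩ := H_surj h2 X
  obtain ⟨a', b', o', rfl⟩ := H_surj h2 Y
  exact ⟨_, jp_HH h2 _ _ _ _ _ _⟩

lemma jp_one (h2 : (2 : K) ≠ 0) (X : SymP 2 K) : jp ((H 1 1 0 : SymP 2 K) : Mat 2 K) X = X := by
  rw [H_one]
  unfold jp
  rw [Matrix.one_mul, Matrix.mul_one, ← two_smul K (X : Mat 2 K), smul_smul, inv_mul_cancel₀ h2,
    one_smul]

lemma jp_comm (X Y : Mat 2 K) : jp X Y = jp Y X := by
  unfold jp
  rw [add_comm]

lemma aut_one (h2 : (2 : K) ≠ 0) (f : SymP 2 K ≃ₗ[K] SymP 2 K) (hf : f ∈ AutP 2 K) :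
    f (H 1 1 0) = H 1 1 0 := by
  have h1 := hf (H 1 1 0) (f.symm (H 1 1 0)) (f.symm (H 1 1 0)) (jp_one h2 _)
  rw [f.apply_symm_apply, jp_comm, jp_one h2] at h1
  exact Subtype.ext h1

lemma fwd (h2 : (2 : K) ≠ 0) (f : SymP 2 K ≃ₗ[K] SymP 2 K) (hf : f ∈ AutP 2 K) (X : SymP 2 K) :
    det2 (f X : Mat 2 K) = det2 (X : Mat 2 K) := by
  have hone := aut_one h2 f hf
  obtain ⟨a, b, o, rfl⟩ := H_surj h2 X
  obtain ⟨a', b', o', hX⟩ := H_surj h2 (f (H a b o))
  have h1 := hf _ _ _ (jp_sq h2 a b o)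
  rw [hX, jp_sq h2, map_sub, map_smul, map_smul, hone, hX] at h1
  have h3 := Subtype.ext h1
  rw [hX, det2_H, det2_H]
  have h4 : (a' + b' - (a + b)) • H a' b' o' =
      (a' * b' - Oct.norm o' - (a * b - Oct.norm o)) • H 1 1 0 := by
    rw [sub_smul'', sub_smul'']
    rw [sub_eq_sub_iff_add_eq_add] at h3 ⊢
    rw [h3]
    abel
  by_cases ht : a' + b' - (a + b) = 0
  · rw [ht, zero_smul] at h4
    rw [H_smul] at h4
    have h5 : H 0 0 0 = (0 : SymP 2 K) := by
      have := H_smul (0 : K) 0 0 0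
      rw [zero_smul, mul_zero, smul_zero] at this
      exact this.symm
    rw [← h5] at h4
    have := (H_inj h4).1
    linear_combination -this
  · obtain ⟨r, hr⟩ : ∃ r : K, H a' b' o' = r • H 1 1 0 := by
      refine ⟨(a' + b' - (a + b))⁻¹ * (a' * b' - Oct.norm o' - (a * b - Oct.norm o)), ?_⟩
      rw [mul_smul, ← h4, smul_smul, inv_mul_cancel₀ ht, one_smul]
    have h6 : f (H a b o) = f (r • H 1 1 0) := by
      rw [hX, hr, map_smul, hone]
    have h7 := f.injective h6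
    rw [← hr] at h7
    obtain ⟨ha, hb, ho⟩ := H_inj h7
    rw [ha, hb, ho]

lemma bwd (h2 : (2 : K) ≠ 0) (f : SymP 2 K ≃ₗ[K] SymP 2 K) (hone : f (H 1 1 0) = H 1 1 0)
    (hd : ∀ X : SymP 2 K, det2 (f X : Mat 2 K) = det2 (X : Mat 2 K)) : f ∈ AutP 2 K := by
  have hsq : ∀ X Z : SymP 2 K, jp (X : Mat 2 K) X = Z → jp (f X : Mat 2 K) (f X) = f Z := by
    intro X Z h
    obtain ⟨a, b, o, rfl⟩ := H_surj h2 X
    obtain ⟨a', b', o', hX⟩ := H_surj h2 (f (H a b o))
    have h1 := hd (H a b o)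
    rw [hX, det2_H, det2_H] at h1
    have h3 := hd (H a b o + H 1 1 0)
    rw [map_add, hone, hX, H_add, H_add, det2_H, det2_H, add_zero, add_zero] at h3
    have h4 : a' + b' = a + b := by linear_combination h3 - h1
    rw [jp_sq h2] at h
    have h5 := Subtype.ext h
    rw [hX, jp_sq h2, ← h5, map_sub, map_smul, map_smul, hone, hX, h1, h4]
  intro X Y Z h
  obtain ⟨P, hP⟩ := jp_mem h2 X X
  obtain ⟨Q, hQ⟩ := jp_mem h2 Y Y
  have hsum : jp ((X + Y : SymP 2 K) : Mat 2 K) ((X + Y : SymP 2 K) : Mat 2 K) =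
      ((P + (2 : K) • Z + Q : SymP 2 K) : Mat 2 K) := by
    have e : ((P + (2 : K) • Z + Q : SymP 2 K) : Mat 2 K) =
      (P : Mat 2 K) + (2 : K) • (Z : Mat 2 K) + (Q : Mat 2 K) := rfl
    have e2 : ((X + Y : SymP 2 K) : Mat 2 K) = (X : Mat 2 K) + Y := rfl
    rw [e, ← hP, ← hQ, ← h, e2]
    unfold jp
    rw [smul_smul, mul_inv_cancel₀ h2, one_smul]
    have hdd : ∀ M : Mat 2 K, (2 : K)⁻¹ • (M + M) = M := fun M => by
      rw [← two_smul K M, smul_smul, inv_mul_cancel₀ h2, one_smul]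
    rw [hdd, hdd, hdd, Matrix.add_mul, Matrix.mul_add, Matrix.mul_add]
    abel
  have r1 := hsq _ _ hP
  have r2 := hsq _ _ hQ
  have r3 := hsq _ _ hsum
  have hdd : ∀ M : Mat 2 K, (2 : K)⁻¹ • (M + M) = M := fun M => by
    rw [← two_smul K M, smul_smul, inv_mul_cancel₀ h2, one_smul]
  have e3 : ((f (P + (2 : K) • Z + Q) : SymP 2 K) : Mat 2 K) =
      (f P : Mat 2 K) + (2 : K) • (f Z : Mat 2 K) + (f Q : Mat 2 K) := by
    rw [map_add, map_add, map_smul]; rfl
  have e4 : ((f (X + Y) : SymP 2 K) : Mat 2 K) = (f X : Mat 2 K) + f Y := by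
    rw [map_add]; rfl
  rw [e3, e4, ← r1, ← r2] at r3
  unfold jp at r3 ⊢
  rw [hdd, hdd, hdd, Matrix.add_mul, Matrix.mul_add, Matrix.mul_add] at r3
  have h9 : (f X : Mat 2 K) * f Y + (f Y : Mat 2 K) * f X = (2 : K) • (f Z : Mat 2 K) := by
    have : (f X : Mat 2 K) * (f X) + (f X : Mat 2 K) * f Y + ((f Y : Mat 2 K) * f X +
      (f Y : Mat 2 K) * f Y) - (f X : Mat 2 K) * (f X) - (f Y : Mat 2 K) * f Y =
      (f X : Mat 2 K) * f Y + (f Y : Mat 2 K) * f X := by abel
    rw [← this, r3]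
    abel
  rw [h9, smul_smul, inv_mul_cancel₀ h2, one_smul]

/-- the linear functional `β(X,v) = (x - y)/2 a + B(p,o)`, times `2/q` -/
def phi (h2 : (2 : K) ≠ 0) (a : K) (o : Oct K) (q : K) : SymP 2 K →ₗ[K] K where
  toFun X := (2 / q) * (((X : Mat 2 K) 0 0 0 - (X : Mat 2 K) 1 1 0) / 2 * a +
    B ((X : Mat 2 K) 0 1) o)
  map_add' X Y := by
    have e0 : ((X + Y : SymP 2 K) : Mat 2 K) 0 0 0 = (X : Mat 2 K) 0 0 0 + (Y : Mat 2 K) 0 0 0 := rfl
    have e1 : ((X + Y : SymP 2 K) : Mat 2 K) 1 1 0 = (X : Mat 2 K) 1 1 0 + (Y : Mat 2 K) 1 1 0 := rfl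
    have e2 : ((X + Y : SymP 2 K) : Mat 2 K) 0 1 = (X : Mat 2 K) 0 1 + (Y : Mat 2 K) 0 1 := rfl
    rw [e0, e1, e2]
    unfold B
    simp only [add_ap]
    ring
  map_smul' r X := by
    have e0 : ((r • X : SymP 2 K) : Mat 2 K) 0 0 0 = r * (X : Mat 2 K) 0 0 0 := rfl
    have e1 : ((r • X : SymP 2 K) : Mat 2 K) 1 1 0 = r * (X : Mat 2 K) 1 1 0 := rfl
    have e2 : ((r • X : SymP 2 K) : Mat 2 K) 0 1 = r • (X : Mat 2 K) 0 1 := rfl
    rw [e0, e1, e2]
    unfold B
    simp only [smul_ap, RingHom.id_apply, smul_eq_mul]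
    ring

lemma phi_H (h2 : (2 : K) ≠ 0) (a : K) (o : Oct K) (q x y : K) (p : Oct K) :
    phi h2 a o q (H x y p) = (2 / q) * ((x - y) / 2 * a + B p o) := by
  show (2 / q) * (((H x y p : Mat 2 K) 0 0 0 - (H x y p : Mat 2 K) 1 1 0) / 2 * a +
    B ((H x y p : Mat 2 K) 0 1) o) = _
  rw [H00, H11, H01, smul_ap, smul_ap, one0, mul_one, mul_one]

lemma center_v (h2 : (2 : K) ≠ 0) (f : SymP 2 K ≃ₗ[K] SymP 2 K) (hf : f ∈ AutP 2 K)
    (hc : ∀ h ∈ AutP 2 K, f * h = h * f) (a : K) (o : Oct K) (hq : a ^ 2 + Oct.norm o ≠ 0) :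
    f (f (H a (-a) o)) = H a (-a) o := by
  set q := a ^ 2 + Oct.norm o with hqd
  set v : SymP 2 K := H a (-a) o with hv
  have hphi : phi h2 a o q v = 2 := by
    rw [hv, phi_H, B_self h2]
    have : (a - -a) / 2 * a + Oct.norm o = q := by rw [hqd]; field_simp; ring
    rw [this]
    field_simp
  have hmem : Module.reflection hphi ∈ AutP 2 K := by
    refine bwd h2 _ ?_ ?_
    · rw [Module.reflection_apply, phi_H]
      have : B (0 : Oct K) o = 0 := by unfold B; simp [zero_ap]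
      rw [this]
      simp
    · intro X
      obtain ⟨x, y, p, rfl⟩ := H_surj h2 X
      rw [Module.reflection_apply, phi_H, hv, sub_eq_add_neg, neg_smul'', H_smul, H_add, det2_H,
        det2_H]
      unfold Oct.norm
      simp only [add_ap, smul_ap]
      set c := (2 / q) * ((x - y) / 2 * a + B p o) with hcd
      have hcq : c * q = 2 * ((x - y) / 2 * a + B p o) := by rw [hcd]; field_simp
      have hB : 2 * B p o = p 0 * o 1 + o 0 * p 1 -
        (p 2 * o 5 + o 2 * p 5 + (p 3 * o 6 + o 3 * p 6) + (p 4 * o 7 + o 4 * p 7)) := by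
        unfold B; field_simp
      have hcq2 : c * q = (x - y) * a + (p 0 * o 1 + o 0 * p 1 -
        (p 2 * o 5 + o 2 * p 5 + (p 3 * o 6 + o 3 * p 6) + (p 4 * o 7 + o 4 * p 7))) := by
        rw [hcq, ← hB]; field_simp
      have hqe : q = a ^ 2 + (o 0 * o 1 - (o 2 * o 5 + o 3 * o 6 + o 4 * o 7)) := rfl
      rw [hqe] at hcq2
      linear_combination (-c) * hcq2
  have hcomm := hc _ hmem
  have h3 : f (Module.reflection hphi v) = Module.reflection hphi (f v) :=
    congrArg (fun e : SymP 2 K ≃ₗ[K] SymP 2 K => e v) hcomm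
  rw [Module.reflection_apply_self, Module.reflection_apply, map_neg] at h3
  obtain ⟨c, hcv⟩ : ∃ c : K, f v = c • v := by
    refine ⟨(2 : K)⁻¹ * phi h2 a o q (f v), ?_⟩
    have h4 : (2 : K) • f v = phi h2 a o q (f v) • v := by
      have e1 : (2 : K) • f v = f v + f v := two_smul K (f v)
      have e2 : phi h2 a o q (f v) • v = f v - -f v := by
        rw [h3]; abel
      rw [e1, e2]
      abel
    rw [mul_smul, ← h4, smul_smul, inv_mul_cancel₀ h2, one_smul]
  have h5 := hf _ _ _ (jp_sq h2 a (-a) o)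
  rw [add_neg_cancel, zero_smul, zero_sub, neg_smul'', map_smul, aut_one h2 f hf, ← hv, hcv] at h5
  have h6 : jp ((c • v : SymP 2 K) : Mat 2 K) ((c • v : SymP 2 K) : Mat 2 K) =
      (((c * c) • (-(a * -a - Oct.norm o)) • H 1 1 0 : SymP 2 K) : Mat 2 K) := by
    have e : jp ((c • v : SymP 2 K) : Mat 2 K) ((c • v : SymP 2 K) : Mat 2 K) =
      (c * c) • jp (v : Mat 2 K) v := by
      have e' : ((c • v : SymP 2 K) : Mat 2 K) = c • (v : Mat 2 K) := rfl
      rw [e']
      unfold jp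
      rw [Matrix.smul_mul, Matrix.mul_smul, smul_smul, ← smul_add, smul_smul, smul_smul, mul_comm]
    rw [e, hv, jp_sq h2, add_neg_cancel, zero_smul, zero_sub, neg_smul'']
    rfl
  rw [h6] at h5
  have h7 := Subtype.ext h5
  rw [smul_smul, H_smul, H_smul] at h7
  have h8 := (H_inj h7).1
  have hq' : -(a * -a - Oct.norm o) = q := by rw [hqd]; ring
  rw [hq', mul_one, mul_one] at h8
  have h9 : c * c = 1 := by
    have : (c * c - 1) * q = 0 := by linear_combination h8
    rcases mul_eq_zero.mp this with h | h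
    · linear_combination h
    · exact absurd h hq
  rw [hcv, map_smul, hcv, smul_smul, h9, one_smul]

theorem t : Pool.Agent.Q19.HO.S_TWO := by
  intro K _ h2
  refine ⟨fun f => ⟨fun hf => ⟨fun X hX => ?_, fwd h2 f hf⟩, fun h => bwd h2 f (h.1 _ H_one) h.2⟩,
    fun f hf hc => ?_⟩
  · have : X = H 1 1 0 := Subtype.ext (by rw [hX, H_one])
    rw [this]
    exact aut_one h2 f hf
  · refine LinearEquiv.ext fun X => ?_
    show f (f X) = X
    obtain ⟨x, y, p, rfl⟩ := H_surj h2 X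
    have hone := aut_one h2 f hf
    have n0 : Oct.norm (0 : Oct K) = 0 := by unfold Oct.norm; simp [zero_ap]
    have hA : f (f (H 1 (-1) 0)) = H 1 (-1) 0 :=
      center_v h2 f hf hc 1 0 (by rw [n0]; simp)
    have hP : f (f (H 0 0 p)) = H 0 0 p := by
      by_cases hn : Oct.norm p = 0
      · have h1 := center_v h2 f hf hc 1 p (by rw [hn]; simp)
        have e : H 0 0 p = H 1 (-1) p - H 1 (-1) 0 := by
          rw [eq_sub_iff_add_eq, H_add]; simp
        rw [e, map_sub, map_sub, h1, hA]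
      · have h1 := center_v h2 f hf hc 0 p (by simpa using hn)
        rw [neg_zero] at h1
        exact h1
    have e : H x y p = ((x + y) / 2) • H 1 1 0 + ((x - y) / 2) • H 1 (-1) 0 + H 0 0 p := by
      rw [H_smul, H_smul, H_add, H_add]
      congr 1
      · field_simp; ring
      · field_simp; ring
      · simp
    rw [e]
    simp only [map_add, map_smul, hone, hA, hP]

end Pool.Agent.Q62.HO.TWO
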